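import Pool.Agent.Work.MP_680e5b_lc.Str

/-!
# The pressing down property and functions with a finite range on a definable club
-/

namespace Pool.Agent.Results.MP_680e5b_lc.FiniteRange

open Pool.Agent.SigOne Cardinal Ordinal Set

/-- Let `ω_ω` be a Jónsson cardinal that is a strong limit. A function `r` on `ω_ω` is constant on
a `Σ₁`-stationary subset of every `Σ₁`-stationary set if and only if it has only finitely many
values on some `Σ₁`-definable club; moreover there is a decreasing sequence of `Σ₁`-definable clubs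
such that each `Σ₁`-definable club contains one of them, and every `Σ₁`-stationary set has a
`Σ₁`-stationary subset of order type `ω`. -/
theorem result (hJ : IsJonsson (ℵ_ ω)) (hs : StrongLim) :
    (∀ r : Ordinal.{0} → Ordinal.{0},
      (∀ S, SigStat S → ∃ β, SigStat {δ | δ ∈ S ∧ r δ = β}) ↔
        ∃ C, SigClub C ∧ (r '' C).Finite) ∧
    (∃ E : ℕ → Set Ordinal.{0}, (∀ i, SigClub (E i)) ∧ (∀ i, E (i + 1) ⊆ E i) ∧
      ∀ C, SigClub C → ∃ i, E i ⊆ C) ∧
    ∀ S, SigStat S → ∃ t : ℕ → Ordinal.{0}, StrictMono t ∧ range t ⊆ S ∧ SigStat (range t) := by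
  refine ⟨fun r => press_iff hJ hs r, ?_, fun S hS => exists_thin hJ hs hS⟩
  obtain ⟨E, hE⟩ := exists_base hJ hs
  exact ⟨E, hE.club, fun i => hE.anti (Nat.le_succ i), hE.cofinal⟩

end Pool.Agent.Results.MP_680e5b_lc.FiniteRange
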