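import Pool.Agent.Work.MP_680e5b_lc.PPress

/-!
# Pressing down on sets of order types of small sets
-/

namespace Pool.Agent.Results.MP_680e5b_lc.OrderTypes

open Pool.Agent.SigOne Cardinal Ordinal Set

/-- Let `ω_ω` be a Jónsson cardinal that is a strong limit, let `r` be a regressive function on
`ω_ω` that is `Σ₁`-definable with parameters in `P`. For every large `k`, every infinite ordinal
`ζ < ω_ω` and club many `x` in `P_κ(ζ)`, `κ = ω_(k+1)`, the value of `r` at the order type of `x`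
is the order type of `x ∩ r ζ`. If `S` is such that for every `N` and all large `m` there is
`k ≥ N` such that the set of all `x` in `P_κ(ω_m)` with order type in `S` is stationary in
`P_κ(ω_m)`, then `r` is constant on a `Σ₁`-stationary subset of `S`. -/
theorem result (hJ : IsJonsson (ℵ_ ω)) (hs : StrongLim) (r : Ordinal.{0} → Ordinal.{0})
    (hr : SigFun r) (hreg : Reg r) :
    (∃ k₀ : ℕ, ∀ k : ℕ, k₀ ≤ k → ∀ ζ : Ordinal.{0}, ω ≤ ζ → ζ < ω_ ω →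
      ∃ K : Set (Set Ordinal.{0}), PClub k ζ K ∧ ∀ x ∈ K, ∀ τ, Otp x τ →
        ∀ τ', Otp (x ∩ Iio (r ζ)) τ' → r τ = τ') ∧
    (∀ (S : Set Ordinal.{0}) (β : Ordinal.{0}),
      (∀ N : ℕ, SigStat {ζ | r ζ = β ∧ ∃ k ≥ N, PBig S k ζ}) → SigStat {δ | δ ∈ S ∧ r δ = β}) ∧
    ∀ S : Set Ordinal.{0}, (∀ N : ℕ, ∃ M : ℕ, ∀ m ≥ M, ∃ k ≥ N, PBig S k (ω_ (m : ℕ))) →
      ∃ T ⊆ S, SigStat T ∧ ∃ β, ∀ δ ∈ T, r δ = β := by
  refine ⟨?_, fun S β h => transfer hJ hs hr hreg h, fun S hS => ?_⟩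
  · have hωlt : (0 : Ordinal.{0}) < ω_ ω := Ordinal.omega_pos _
    obtain ⟨k₀, hk₀⟩ := reflect hJ hs hr (sigClub_Ioo hωlt)
    refine ⟨k₀, fun k hk ζ hζ hζ' => ?_⟩
    obtain ⟨K, hK, hK'⟩ := hk₀ k hk ζ hζ hζ' (hreg ζ hζ' (Ordinal.omega0_pos.trans_le hζ)).le
    exact ⟨K, hK, fun x hx τ hτ => (hK' x hx τ hτ).2⟩
  · obtain ⟨β, hβ⟩ := ppress_all hJ hs hr hreg hS
    exact ⟨_, fun δ hδ => hδ.1, hβ, β, fun δ hδ => hδ.2⟩

end Pool.Agent.Results.MP_680e5b_lc.OrderTypes
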