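import Pool.Agent.Work.MP_680e5b_lc.PartA

/-!
# Pressing down on sets that are large below the cardinals `ω_n`
-/

namespace Pool.Agent.Results.MP_680e5b_lc.PressClubs

open Pool.Agent.SigOne Cardinal Ordinal Set

/-- Let `ω_ω` be a Jónsson cardinal, let `r` be a regressive function on `ω_ω` that is
`Σ₁`-definable with parameters in `P`, and let `S` be a set of ordinals that is large below `ω_n`
for all but finitely many `n`. Then `r` is constant on a `Σ₁`-stationary subset of `S`. More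
precisely, if `β` is the value of `r` at `ω_n` for infinitely many `n` such that `S` is large below
`ω_n`, then the set of all `δ` in `S` with `r δ = β` is `Σ₁`-stationary; and for all sufficiently
large `n` the value of `r` at `ω_n` is the value of `r` at `ω_l` for infinitely many `l`. -/
theorem result (hJ : IsJonsson (ℵ_ ω)) (r : Ordinal.{0} → Ordinal.{0}) (hr : SigFun r)
    (hreg : Reg r) :
    (∀ S : Set Ordinal.{0}, (∃ N : ℕ, ∀ n > N, Big S n) →
      ∃ T ⊆ S, SigStat T ∧ ∃ β, ∀ δ ∈ T, r δ = β) ∧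
    (∀ (S : Set Ordinal.{0}) (β : Ordinal.{0}),
      (∀ N : ℕ, ∃ n > N, Big S n ∧ r (ω_ (n : ℕ)) = β) → SigStat {δ | δ ∈ S ∧ r δ = β}) ∧
    ∃ n₀ : ℕ, ∀ n : ℕ, n₀ ≤ n → ∀ N : ℕ, ∃ l > N, r (ω_ (l : ℕ)) = r (ω_ n) := by
  refine ⟨fun S hS => ?_, fun S β h => press_of_const hJ hr hreg h, main_repeat hJ hr hreg⟩
  obtain ⟨n, hn⟩ := press_of_big hJ hr hreg hS
  exact ⟨_, fun δ hδ => hδ.1, hn, _, fun δ hδ => hδ.2⟩

end Pool.Agent.Results.MP_680e5b_lc.PressClubs
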